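import Pool.Agent.N561.V.Defs
import Pool.Agent.TH126.J1741
import Pool.Agent.TH563.V.StepT

/-!
# The last step at a large vertex or at a vertex with a circle: the growth rate
-/

set_option autoImplicit false
set_option maxHeartbeats 1000000

namespace Pool.Agent.N821.VR

open Finset Filter Topology Metric
open Pool.Agent.W711.HT hiding XX
open Pool.Agent.TH563.UV
open Pool.Agent.TH563.V
open Pool.Agent.TH563.Z
open Pool.Agent.W85.HT hiding Rc_mono
open Pool.Agent.W293.HT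
open Pool.Agent.TH929.J29 (locb lapB)
open scoped Real

variable {ρ τ κ c C : ℝ}

/-- the last step at a vertex with a circle: the growth rate -/
theorem root_circle (hρ0 : 0 < ρ) (hρ1 : ρ ≤ 1 / 4) (hτ0 : 0 < τ) (hκ : 0 < κ)
    (hc : 0 < c) (hC : 0 < C) {t : ℕ} {X : ℕ → ℂ → ℂ} {F : ℂ → ℂ} (ht : 1 ≤ t)
    (hX : GoodV ρ τ κ c C t X F) (a : ℤ) :
    Tendsto (fun N : ℕ => Real.log ‖upp (1 / N) fun ψ => Eb true a N ψ * X N ψ * kr N ψ‖ / N)
      atTop (𝓝 (F 0).re) := by
  have hπ := Real.pi_gt_three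
  have ht1 : (1 : ℝ) ≤ (t : ℝ) := by exact_mod_cast ht
  have hct : 0 < c * t := by positivity
  have hCt : 0 ≤ C * t := by positivity
  have h02 : (0 : ℂ) ∈ Rc (2 * ρ) (2 * τ) := zero_mem_Rc (by linarith) (by linarith)
  obtain ⟨κ₂, hκ₂, hloc⟩ := locb upb (a := a) (K := (Set.univ : Set Unit))
    (Y := fun N w _ => X N w) (G := fun w _ => F w)
    (c₀ := c * t / 2) (L := C * t) (τ₁ := τ) hρ0 (by linarith) hτ0 hτ0
    (fun N p _ => hX.an N)
    (fun ε hε => by
      filter_upwards [hX.mw ε hε] with N h w hw p _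
      exact h w hw) (by positivity) hCt
    (fun p _ x hx => real_axis hX.gh hτ0 hρ0 x hx)
    (fun p _ x y hx hy hy' => gh_up hX.gh hρ0 hτ0 hCt hx hy hy')
    ⟨κ / 2, by positivity, by
      filter_upwards [hX.gl1] with N h1 p _ x y hx1 hx2 hy
      refine (h1 x y hx1 hx2 hy).trans (Real.exp_le_exp.2
        (mul_le_mul_of_nonneg_left ?_ (Nat.cast_nonneg N)))
      have : 1 * (κ / 2) ≤ (t : ℝ) * (κ / 2) :=
        mul_le_mul_of_nonneg_right ht1 (by positivity)
      linarith⟩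
  have hG2 := hX.gh.d2 0 h02
  have hM := lapB Pool.Agent.W588.HT.lapc Pool.Agent.W930.HTLog.main
    (Y := X) (G := F) (a := a) hρ0 hτ0
    (Eventually.of_forall fun N => (hX.an N).differentiableOn)
    (hX.gh.an.mono (Rc_mono (by linarith) (by linarith)))
    hX.mw (hX.gh.d0 hρ0 hτ0) (by linarith)
    (by
      intro x hx hx0
      have h1 := real_axis hX.gh hτ0 hρ0 x hx
      have h2 : 0 < c * t / 2 * x ^ 2 := by positivity
      linarith)
  refine log_lim (M := fun N : ℕ => (-Complex.I) * ∫ x in (-ρ)..ρ, Ea a N x * X N x)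
    (T := fun N : ℕ => upp (1 / N) fun ψ => Eb true a N ψ * X N ψ * kr N ψ)
    (κ := κ₂) (C := 1) hκ₂ zero_le_one ?_ ?_
  · intro e he
    filter_upwards [hM e he] with N h1
    rw [norm_mul, norm_neg, Complex.norm_I, one_mul]
    exact h1
  · filter_upwards [hloc] with N h1
    have k1 := h1 () (Set.mem_univ _)
    have e1 : (upp (1 / N) fun ψ => Eb true a N ψ * X N ψ * kr N ψ) =
        upp (1 / N) fun w => Ea a N w * (UN N w * X N w) * kr N w := by
      unfold Pool.Agent.TH563.UV.Eb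
      congr 1
      funext w
      simp only [if_true]
      ring
    rw [e1, one_mul]
    exact k1

/-- the last step at a vertex without circle: the growth rate -/
theorem root_big (hρ0 : 0 < ρ) (hρ1 : ρ ≤ 1 / 4) (hτ0 : 0 < τ) (hκ : 0 < κ)
    {t : ℕ} {X : ℕ → ℂ → ℂ} {F : ℂ → ℂ} (ht : 1 ≤ t)
    (hX : GoodV ρ τ κ c C t X F) {a : ℤ} {r₀ : ℝ} {z : ℂ} (hz1 : CPu ρ τ r₀ z)
    (hz2 : SAD a F ρ z) (hz4 : ‖qq a F z - F 0‖ ≤ κ / 16) :
    Tendsto (fun N : ℕ => Real.log ‖upp (1 / N) fun ψ => Eb false a N ψ * X N ψ * kr N ψ‖ / N)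
      atTop (𝓝 (qq a F z).re) := by
  have hπ := Real.pi_gt_three
  have ht1 : (1 : ℝ) ≤ (t : ℝ) := by exact_mod_cast ht
  have hR23 : Rc (2 * ρ) (2 * τ) ⊆ Rc (3 * ρ) (3 * τ) := Rc_mono (by linarith) (by linarith)
  have hzi := hz1.mem.2
  rw [abs_of_pos hz1.im] at hzi
  have hnear := lap_strong Pool.Agent.W711.HT.f_LAPINT (Y := X) (G := F) (a := a) (z := z)
    hρ0 hτ0 (by linarith) (Eventually.of_forall fun N => (hX.an N).differentiableOn)
    (hX.gh.an.mono hR23) hX.mw hz1.mem.1 hz1.im hzi hz2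
  simp only [Eb_false]
  refine full_lim upb (a := a) hρ0 (by linarith) (κ := κ / 4) (by positivity)
    (fun N => (hX.an N).continuous) hnear ?_
  filter_upwards [hX.gl1] with N h1 x y hx1 hx2 hy
  refine (h1 x y hx1 hx2 hy).trans (Real.exp_le_exp.2 ?_)
  apply mul_le_mul_of_nonneg_left _ (Nat.cast_nonneg N)
  have k1 := (Complex.abs_re_le_norm _).trans hz4
  rw [Complex.sub_re] at k1
  have k2 : 1 * (κ / 2) ≤ (t : ℝ) * (κ / 2) :=
    mul_le_mul_of_nonneg_right ht1 (by positivity)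
  linarith [(abs_le.1 k1).1]

/-- job R: the last step at a large vertex or a vertex with a circle, growth rate -/
theorem root : Pool.Agent.N561.S_ROOT := by
  intro ρ τ κ c C hρ0 hρ1 hτ0 hτρ hκ hc hC r₀ hr₀
  obtain ⟨K, hK0, hcp⟩ := Pool.Agent.TH126.J1741.cp_last (C := max C 1) hρ1 hτ0 hτρ hc
    (le_max_right _ _) hr₀ hκ
  refine ⟨K, hK0, ?_⟩
  intro t X F ht1 hX b a ha
  have ht0 : (0 : ℝ) ≤ t := Nat.cast_nonneg t
  cases b with
  | true =>
    refine ⟨0, zero_mem_Rc (by linarith) (by linarith), by rw [norm_zero]; exact hr₀.le,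
      fun _ => rfl, fun h => by simp at h, ?_⟩
    have e : (vt true a 0 + F 0).re = (F 0).re := by
      unfold vt
      simp
    rw [e]
    exact root_circle hρ0 hρ1 hτ0 hκ hc hC ht1 hX a
  | false =>
    have gh : GH ρ τ (c * t) (max C 1 * t) F := ⟨hX.gh.an, hX.gh.ev, hX.gh.d2, fun w hw =>
      (hX.gh.d2b w hw).trans (mul_le_mul_of_nonneg_right (le_max_left _ _) ht0)⟩
    obtain ⟨z, hz1, hz2, hz3, hz4⟩ := hcp t F ht1 gh a (ha rfl)
    refine ⟨z, Rc_mono (by linarith) (by linarith) hz1.mem, hz1.sm, fun h => by simp at h,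
      fun _ => ⟨hz1, hz3⟩, ?_⟩
    have e : vt false a z + F z = qq a F z := by
      unfold vt qq
      simp only [Bool.false_eq_true, if_false]
    rw [e]
    exact root_big hρ0 hρ1 hτ0 hκ ht1 hX hz1 hz2 hz4

end Pool.Agent.N821.VR
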